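import Pool.Agent.Helper88_PF.Lower

/-!
# `Dstar s ≤ D s + 1 / (2 q ^ a)` for every odd prime power `q ^ a` dividing `s`
-/

namespace Pool.Agent.Helper88_PF

theorem ordCompl_modEq {q a N m : ℕ} (hq : q.Prime) (hm : ¬ q ^ a ∣ m) (h : N ≡ m [MOD q ^ a]) :
    ((ordCompl[q] N : ℕ) : ZMod q) = ((ordCompl[q] m : ℕ) : ZMod q) := by
  have hm0 : m ≠ 0 := by rintro rfl; exact hm (dvd_zero _)
  have hN : ¬ q ^ a ∣ N := fun h1 => hm ((h.dvd_iff dvd_rfl).1 h1)
  have hN0 : N ≠ 0 := by rintro rfl; exact hN (dvd_zero _)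
  set v := m.factorization q with hv
  have hva : v < a := by
    by_contra h1
    push Not at h1
    exact hm ((hq.pow_dvd_iff_le_factorization hm0).2 h1)
  have h2 : N ≡ m [MOD q ^ (v + 1)] := h.of_dvd (pow_dvd_pow q hva)
  have h3 : q ^ v ∣ m := (hq.pow_dvd_iff_le_factorization hm0).2 le_rfl
  have h4 : q ^ v ∣ N := (h2.dvd_iff (pow_dvd_pow q (Nat.le_succ v))).2 h3
  have h5 : ¬ q ^ (v + 1) ∣ m := by
    intro h6
    have := (hq.pow_dvd_iff_le_factorization hm0).1 h6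
    omega
  have h6 : ¬ q ^ (v + 1) ∣ N := fun h7 => h5 ((h2.dvd_iff dvd_rfl).1 h7)
  have h7 : N.factorization q = v := by
    apply le_antisymm
    · by_contra h8
      push Not at h8
      exact h6 ((hq.pow_dvd_iff_le_factorization hN0).2 h8)
    · exact (hq.pow_dvd_iff_le_factorization hN0).1 h4
  rw [h7]
  obtain ⟨m', hm'⟩ := h3
  obtain ⟨N', hN'⟩ := h4
  have hqv : 0 < q ^ v := pow_pos hq.pos v
  rw [hm', hN', Nat.mul_div_cancel_left _ hqv, Nat.mul_div_cancel_left _ hqv]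
  rw [ZMod.natCast_eq_natCast_iff]
  rw [hm', hN', pow_succ] at h2
  exact Nat.ModEq.mul_left_cancel' hqv.ne' h2

/-- The sign of `z` modulo `s`: the quadratic character modulo `q` of the part of `z` prime to
`q`, and `0` if `q ^ a` divides `z`. -/
noncomputable def sgn (q a s : ℕ) [Fact q.Prime] (z : ZMod s) : ℤ :=
  open Classical in
  if q ^ a ∣ z.val then 0 else quadraticChar (ZMod q) ((ordCompl[q] z.val : ℕ) : ZMod q)

theorem ordCompl_cast_ne_zero {q n : ℕ} (hq : q.Prime) (hn : n ≠ 0) :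
    ((ordCompl[q] n : ℕ) : ZMod q) ≠ 0 := by
  rw [Ne, ZMod.natCast_eq_zero_iff]
  exact Nat.not_dvd_ordCompl hq hn

theorem sgn_eq_zero {q a s : ℕ} [Fact q.Prime] (z : ZMod s) : sgn q a s z = 0 ↔ q ^ a ∣ z.val := by
  unfold sgn
  split_ifs with h
  · simp [h]
  · simp only [h, iff_false]
    rw [quadraticChar_eq_zero_iff]
    apply ordCompl_cast_ne_zero Fact.out
    intro h0
    rw [h0] at h
    exact h (dvd_zero _)

theorem dvd_val_iff {m s : ℕ} [NeZero s] (h : m ∣ s) (z : ZMod s) :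
    m ∣ z.val ↔ ZMod.castHom h (ZMod m) z = 0 := by
  rw [ZMod.castHom_apply, ZMod.cast_eq_val, ZMod.natCast_eq_zero_iff]

theorem sgn_mul {q a s : ℕ} [Fact q.Prime] [NeZero s] (h : q ^ a ∣ s) (z w : ZMod s)
    (hzw : sgn q a s (z * w) ≠ 0) : sgn q a s (z * w) = sgn q a s z * sgn q a s w := by
  have hzw' : ¬ q ^ a ∣ (z * w).val := by rwa [Ne, sgn_eq_zero] at hzw
  have h1 : ¬ q ^ a ∣ z.val := by
    rw [dvd_val_iff h] at hzw' ⊢
    intro h2
    apply hzw'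
    rw [map_mul, h2, zero_mul]
  have h2 : ¬ q ^ a ∣ w.val := by
    rw [dvd_val_iff h] at hzw' ⊢
    intro h2
    apply hzw'
    rw [map_mul, h2, mul_zero]
  unfold sgn
  rw [if_neg hzw', if_neg h1, if_neg h2, ← map_mul, ← Nat.cast_mul, ← Nat.ordCompl_mul]
  congr 1
  symm
  apply ordCompl_modEq Fact.out hzw'
  rw [ZMod.val_mul]
  exact ((Nat.mod_modEq _ _).symm).of_dvd h

open Classical in
theorem Dstar_le_add {q a s : ℕ} (hs : s ≠ 0) (hq : q.Prime) (hq2 : q ≠ 2) (ha : a ≠ 0)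
    (h : q ^ a ∣ s) : Dstar s ≤ D s + 1 / (2 * (q : ℝ) ^ a) := by
  have : NeZero s := ⟨hs⟩
  have : Fact q.Prime := ⟨hq⟩
  obtain ⟨X, Y, hXY, hX, hY, hadm, hD⟩ := exists_inv_pair hs
  set ψ := sgn q a s with hψ
  have hψ3 : ∀ z, ψ z = 0 ∨ ψ z = 1 ∨ ψ z = -1 := by
    intro z
    rw [hψ]
    unfold sgn
    split_ifs with h1
    · exact Or.inl rfl
    · right
      apply quadraticChar_dichotomy
      apply ordCompl_cast_ne_zero hq
      intro h0
      rw [h0] at h1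
      exact h1 (dvd_zero _)
  -- the product-free set
  set A : Set (ZMod s) := {z | (ψ z = 1 ∧ z ∈ X) ∨ (ψ z = -1 ∧ z ∈ Y) ∨ (ψ z = 0 ∧ z ∈ X)} with hA
  have hAY : ∀ z ∈ A, z ∈ Y := by
    intro z hz
    rcases hz with ⟨_, h1⟩ | ⟨_, h1⟩ | ⟨_, h1⟩
    · exact hXY h1
    · exact h1
    · exact hXY h1
  have hpf : ProductFree A := by
    intro z hz w hw hzw
    have hzY := hAY z hz
    have hwY := hAY w hw
    by_cases h0 : ψ (z * w) = 0
    · have h1 : z * w ∈ X := by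
        rcases hzw with ⟨_, h1⟩ | ⟨h1, _⟩ | ⟨_, h1⟩
        · exact h1
        · rw [h1] at h0; norm_num at h0
        · exact h1
      exact hadm.2.2 z hzY w hwY h1
    · have h1 := sgn_mul h z w h0
      rw [← hψ] at h1
      have hz0 : ψ z ≠ 0 := by
        intro h2; rw [h2, zero_mul] at h1; exact h0 h1
      have hw0 : ψ w ≠ 0 := by
        intro h2; rw [h2, mul_zero] at h1; exact h0 h1
      rcases hz with ⟨h2, h3⟩ | ⟨h2, h3⟩ | ⟨h2, h3⟩
      · rcases hw with ⟨h4, h5⟩ | ⟨h4, h5⟩ | ⟨h4, h5⟩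
        · rw [h2, h4] at h1
          rcases hzw with ⟨_, h6⟩ | ⟨h6, _⟩ | ⟨h6, _⟩
          · exact hadm.1 z h3 w h5 h6
          · rw [h1] at h6; norm_num at h6
          · exact h0 h6
        · rw [h2, h4] at h1
          rcases hzw with ⟨h6, _⟩ | ⟨_, h6⟩ | ⟨h6, _⟩
          · rw [h1] at h6; norm_num at h6
          · exact hadm.2.1 z h3 w h5 h6
          · exact h0 h6
        · exact hw0 h4
      · rcases hw with ⟨h4, h5⟩ | ⟨h4, h5⟩ | ⟨h4, h5⟩
        · rw [h2, h4] at h1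
          rcases hzw with ⟨h6, _⟩ | ⟨_, h6⟩ | ⟨h6, _⟩
          · rw [h1] at h6; norm_num at h6
          · rw [mul_comm] at h6
            exact hadm.2.1 w h5 z h3 h6
          · exact h0 h6
        · rw [h2, h4] at h1
          rcases hzw with ⟨_, h6⟩ | ⟨h6, _⟩ | ⟨h6, _⟩
          · exact hadm.2.2 z h3 w h5 h6
          · rw [h1] at h6; norm_num at h6
          · exact h0 h6
        · exact hw0 h4
      · exact hz0 h2
  -- a unit with sign -1
  obtain ⟨u, hu⟩ : ∃ u : (ZMod s)ˣ, ψ (u : ZMod s) = -1 := by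
    have hchar : ringChar (ZMod q) ≠ 2 := by rwa [ZMod.ringChar_zmod_n]
    obtain ⟨c, hc⟩ := quadraticChar_exists_neg_one hchar
    have hqs : q ∣ s := (dvd_pow_self q ha).trans h
    have hc0 : c ≠ 0 := by
      rintro rfl
      rw [MulChar.map_zero] at hc
      norm_num at hc
    obtain ⟨u, hu⟩ := ZMod.unitsMap_surjective hqs (Units.mk0 c hc0)
    refine ⟨u, ?_⟩
    have h1 : ((u : ZMod s).val : ZMod q) = c := by
      have h2 : ((ZMod.unitsMap hqs u : (ZMod q)ˣ) : ZMod q) = c := by rw [hu]; rfl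
      rw [ZMod.unitsMap_val, ZMod.cast_eq_val] at h2
      exact h2
    have h2 : ¬ q ∣ (u : ZMod s).val := by
      rw [← ZMod.natCast_eq_zero_iff, h1]
      exact hc0
    have h3 : ¬ q ^ a ∣ (u : ZMod s).val := fun h4 => h2 ((dvd_pow_self q ha).trans h4)
    rw [hψ]
    unfold sgn
    rw [if_neg h3, Nat.factorization_eq_zero_of_not_dvd h2, pow_zero, Nat.div_one, h1, hc]
  have hu0 : ∀ z, ψ ((u : ZMod s) * z) = - ψ z := by
    intro z
    by_cases h0 : ψ ((u : ZMod s) * z) = 0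
    · have h1 : ψ z = 0 := by
        rw [hψ, sgn_eq_zero, dvd_val_iff h] at h0 ⊢
        rw [map_mul] at h0
        have h2 : IsUnit (ZMod.castHom h (ZMod (q ^ a)) (u : ZMod s)) := u.isUnit.map _
        exact (h2.mul_right_eq_zero).1 h0
      rw [h0, h1, neg_zero]
    · rw [hψ, sgn_mul h _ _ h0, ← hψ, hu]
      ring
  have hhalf : ∀ S : Set (ZMod s), (∀ (v : (ZMod s)ˣ) (b : ZMod s), b ∈ S → (v : ZMod s) * b ∈ S) →
      {z | z ∈ S ∧ ψ z = 1}.ncard = {z | z ∈ S ∧ ψ z = -1}.ncard := by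
    intro S hS
    apply le_antisymm
    · apply Set.ncard_le_ncard_of_injOn (fun z => (u : ZMod s) * z)
      · rintro z ⟨h1, h2⟩
        refine ⟨hS u z h1, ?_⟩
        rw [hu0, h2]
      · intro z _ w _ hzw
        exact (Units.mul_right_inj u).1 hzw
    · apply Set.ncard_le_ncard_of_injOn (fun z => (u : ZMod s) * z)
      · rintro z ⟨h1, h2⟩
        refine ⟨hS u z h1, ?_⟩
        rw [hu0, h2, neg_neg]
      · intro z _ w _ hzw
        exact (Units.mul_right_inj u).1 hzw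
  have hsplit : ∀ S : Set (ZMod s), S.ncard = {z | z ∈ S ∧ ψ z = 1}.ncard +
      {z | z ∈ S ∧ ψ z = -1}.ncard + {z | z ∈ S ∧ ψ z = 0}.ncard := by
    intro S
    have h1 : S = ({z | z ∈ S ∧ ψ z = 1} ∪ {z | z ∈ S ∧ ψ z = -1}) ∪ {z | z ∈ S ∧ ψ z = 0} := by
      ext z
      simp only [Set.mem_union, Set.mem_ofPred_eq]
      constructor
      · intro hz
        rcases hψ3 z with h1 | h1 | h1
        · exact Or.inr ⟨hz, h1⟩
        · exact Or.inl (Or.inl ⟨hz, h1⟩)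
        · exact Or.inl (Or.inr ⟨hz, h1⟩)
      · rintro ((h1 | h1) | h1) <;> exact h1.1
    conv_lhs => rw [h1]
    rw [Set.ncard_union_eq, Set.ncard_union_eq]
    · rw [Set.disjoint_left]
      rintro z ⟨_, h1⟩ ⟨_, h2⟩
      rw [h1] at h2; norm_num at h2
    · rw [Set.disjoint_left]
      rintro z (⟨_, h1⟩ | ⟨_, h1⟩) ⟨_, h2⟩
      · rw [h1] at h2; norm_num at h2
      · rw [h1] at h2; norm_num at h2
  have hAcard : A.ncard = {z | z ∈ X ∧ ψ z = 1}.ncard + {z | z ∈ Y ∧ ψ z = -1}.ncard +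
      {z | z ∈ X ∧ ψ z = 0}.ncard := by
    have h1 : A = ({z | z ∈ X ∧ ψ z = 1} ∪ {z | z ∈ Y ∧ ψ z = -1}) ∪ {z | z ∈ X ∧ ψ z = 0} := by
      ext z
      simp only [hA, Set.mem_union, Set.mem_ofPred_eq]
      tauto
    rw [h1, Set.ncard_union_eq, Set.ncard_union_eq]
    · rw [Set.disjoint_left]
      rintro z ⟨_, h1⟩ ⟨_, h2⟩
      rw [h1] at h2; norm_num at h2
    · rw [Set.disjoint_left]
      rintro z (⟨_, h1⟩ | ⟨_, h1⟩) ⟨_, h2⟩
      · rw [h1] at h2; norm_num at h2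
      · rw [h1] at h2; norm_num at h2
  have hzero : (q ^ a) * {z : ZMod s | z ∈ Y ∧ ψ z = 0}.ncard ≤ s := by
    have h1 := ncard_preimage_castHom hs h ({0} : Set (ZMod (q ^ a)))
    rw [Set.ncard_singleton, mul_one] at h1
    calc (q ^ a) * {z : ZMod s | z ∈ Y ∧ ψ z = 0}.ncard
        ≤ (q ^ a) * (ZMod.castHom h (ZMod (q ^ a)) ⁻¹' {0}).ncard := by
          apply Nat.mul_le_mul_left
          apply Set.ncard_le_ncard
          · rintro z ⟨_, h2⟩
            rw [hψ, sgn_eq_zero, dvd_val_iff h] at h2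
            exact h2
          · exact Set.toFinite _
      _ = s := h1
  have h1 := le_D hs hpf
  have h2 : (A.ncard : ℝ) = {z | z ∈ X ∧ ψ z = 1}.ncard + {z | z ∈ Y ∧ ψ z = -1}.ncard +
      {z | z ∈ X ∧ ψ z = 0}.ncard := by exact_mod_cast hAcard
  have h3 : (X.ncard : ℝ) = {z | z ∈ X ∧ ψ z = 1}.ncard + {z | z ∈ X ∧ ψ z = -1}.ncard +
      {z | z ∈ X ∧ ψ z = 0}.ncard := by exact_mod_cast hsplit X
  have h4 : (Y.ncard : ℝ) = {z | z ∈ Y ∧ ψ z = 1}.ncard + {z | z ∈ Y ∧ ψ z = -1}.ncard +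
      {z | z ∈ Y ∧ ψ z = 0}.ncard := by exact_mod_cast hsplit Y
  have h5 : (({z | z ∈ X ∧ ψ z = 1}.ncard : ℕ) : ℝ) = {z | z ∈ X ∧ ψ z = -1}.ncard := by
    exact_mod_cast hhalf X hX
  have h6 : (({z | z ∈ Y ∧ ψ z = 1}.ncard : ℕ) : ℝ) = {z | z ∈ Y ∧ ψ z = -1}.ncard := by
    exact_mod_cast hhalf Y hY
  have h7 : ((q : ℝ) ^ a) * {z : ZMod s | z ∈ Y ∧ ψ z = 0}.ncard ≤ s := by exact_mod_cast hzero
  have h8 : (0 : ℝ) ≤ {z | z ∈ X ∧ ψ z = 0}.ncard := by positivity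
  have hs' : (0 : ℝ) < s := by positivity
  have hqa : (0 : ℝ) < (q : ℝ) ^ a := by
    have := hq.pos
    positivity
  rw [div_le_iff₀ hs'] at h1
  have h9 : ({z : ZMod s | z ∈ Y ∧ ψ z = 0}.ncard : ℝ) ≤ s / (q : ℝ) ^ a := by
    rw [le_div_iff₀ hqa]
    linarith
  have h10 : Dstar s * s ≤ (D s + 1 / (2 * (q : ℝ) ^ a)) * s := by
    have h11 : (1 / (2 * (q : ℝ) ^ a)) * s = (s / (q : ℝ) ^ a) / 2 := by
      field_simp
    rw [add_mul, h11]
    linarith
  exact le_of_mul_le_mul_right h10 hs'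

end Pool.Agent.Helper88_PF
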