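import Mathlib

/-!
# Product-free sets in a product of a finite commutative monoid and a finite abelian group
-/

namespace Pool.Agent.Helper88_PF

/-- A subset of a multiplicative structure is product-free if it contains no `a, b, c` with
`a * b = c` (not necessarily distinct). -/
def ProductFree {M : Type*} [Mul M] (A : Set M) : Prop := ∀ a ∈ A, ∀ b ∈ A, a * b ∉ A

/-- A pair `(X, Y)` of sets with `X·X ∩ X = ∅`, `X·Y ∩ Y = ∅` and `Y·Y ∩ X = ∅`. -/
def Admissible {M : Type*} [Mul M] (X Y : Set M) : Prop :=
  (∀ a ∈ X, ∀ b ∈ X, a * b ∉ X) ∧ (∀ a ∈ X, ∀ b ∈ Y, a * b ∉ Y) ∧ (∀ a ∈ Y, ∀ b ∈ Y, a * b ∉ X)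

section Core

set_option linter.unusedSectionVars false

variable {M G : Type*} [CommMonoid M] [Fintype M] [CommGroup G] [Fintype G]

open Classical in
/-- the elements `h` of the group `Mˣ × G` such that `h • (a, 1) ∈ A` -/
noncomputable def hits (A : Set (M × G)) (a : M) : Finset (Mˣ × G) :=
  Finset.univ.filter (fun h : Mˣ × G => ((h.1 : M) * a, h.2) ∈ A)

theorem mem_hits {A : Set (M × G)} {a : M} {h : Mˣ × G} :
    h ∈ hits A a ↔ ((h.1 : M) * a, h.2) ∈ A := by
  simp [hits]

open Classical in
theorem hits_add_le {A : Set (M × G)} (hA : ProductFree A) (a b : M) (hb : 0 < (hits A b).card) :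
    (hits A a).card + (hits A (a * b)).card ≤ Fintype.card (Mˣ × G) := by
  obtain ⟨h', hh'⟩ := Finset.card_pos.1 hb
  rw [mem_hits] at hh'
  have h1 : ((hits A a).image (fun h => h * h')).card = (hits A a).card :=
    Finset.card_image_of_injective _ (fun x y hxy => mul_right_cancel hxy)
  have h2 : Disjoint ((hits A a).image (fun h => h * h')) (hits A (a * b)) := by
    rw [Finset.disjoint_left]
    intro h hh hh2
    obtain ⟨g, hg, rfl⟩ := Finset.mem_image.1 hh
    rw [mem_hits] at hg hh2
    have h3 := hA _ hg _ hh'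
    apply h3
    have h4 : ((g.1 : M) * a, g.2) * ((h'.1 : M) * b, h'.2) =
        (((g * h').1 : Mˣ) * (a * b), (g * h').2) := by
      ext
      · simp only [Prod.fst_mul, Units.val_mul]
        exact mul_mul_mul_comm _ _ _ _
      · simp
    rw [h4]
    exact hh2
  rw [← h1, ← Finset.card_union_of_disjoint h2]
  exact Finset.card_le_univ _

open Classical in
theorem hits_unit (A : Set (M × G)) (v : Mˣ) (a : M) :
    (hits A ((v : M) * a)).card = (hits A a).card := by
  apply Finset.card_bij (fun h _ => (h.1 * v, h.2))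
  · intro h hh
    rw [mem_hits] at hh ⊢
    simpa [mul_assoc] using hh
  · rintro ⟨a1, a2⟩ _ ⟨b1, b2⟩ _ h
    simpa using h
  · intro h hh
    rw [mem_hits] at hh
    refine ⟨(h.1 * v⁻¹, h.2), ?_, by simp⟩
    rw [mem_hits]
    simpa [mul_assoc] using hh

open Classical in
theorem sum_hits (A : Set (M × G)) :
    ∑ a : M, (hits A a).card = Fintype.card Mˣ * A.ncard := by
  have h1 : ∀ a : M, (hits A a).card = ∑ u : Mˣ, ∑ g : G,
      if ((u : M) * a, g) ∈ A then 1 else 0 := by
    intro a
    rw [hits, Finset.card_filter, Fintype.sum_prod_type]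
  simp_rw [h1]
  rw [Finset.sum_comm]
  have h2 : ∀ u : Mˣ, ∑ a : M, ∑ g : G, (if ((u : M) * a, g) ∈ A then 1 else 0) = A.ncard := by
    intro u
    rw [Fintype.sum_equiv (Units.mulLeft u) (fun a : M => ∑ g : G, (if ((u : M) * a, g) ∈ A
      then 1 else 0)) (fun a : M => ∑ g : G, (if (a, g) ∈ A then 1 else 0)) (fun a => by simp)]
    rw [← Fintype.sum_prod_type (f := fun x : M × G => if x ∈ A then 1 else 0)]
    rw [Finset.sum_boole, Set.ncard_eq_toFinset_card', Nat.cast_id]
    congr 1
    ext x
    simp
  rw [Finset.sum_congr rfl (fun u _ => h2 u)]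
  simp

theorem count_lt (N k : ℕ) (hk : k ≤ N) : ∑ j ∈ Finset.range N, (if j < k then 1 else 0) = k := by
  rw [Finset.sum_boole]
  have : (Finset.range N).filter (fun j => j < k) = Finset.range k := by
    ext j; simp; omega
  rw [this]; simp

theorem count_rev (N k : ℕ) (hk : k ≤ N) :
    ∑ j ∈ Finset.range N, (if N ≤ k + j then 1 else 0) = k := by
  rw [← Finset.sum_range_reflect]
  conv_rhs => rw [← count_lt N k hk]
  apply Finset.sum_congr rfl
  intro j hj
  rw [Finset.mem_range] at hj
  congr 1
  apply propext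
  omega

open Classical in
/-- The main structural lemma: a product-free set `A` in `M × G` gives an admissible pair of
subsets of `M`, invariant under the units of `M`, with at least the same density. -/
theorem core {A : Set (M × G)} (hA : ProductFree A) : ∃ X Y : Set M, X ⊆ Y ∧
    (∀ (u : Mˣ) (a : M), a ∈ X → (u : M) * a ∈ X) ∧ (∀ (u : Mˣ) (a : M), a ∈ Y → (u : M) * a ∈ Y) ∧
    Admissible X Y ∧ 2 * A.ncard ≤ Fintype.card G * (X.ncard + Y.ncard) := by
  set N := Fintype.card (Mˣ × G) with hN
  have hNpos : 0 < N := Fintype.card_pos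
  have hkN : ∀ a, (hits A a).card ≤ N := fun a => Finset.card_le_univ _
  set Y : ℕ → Set M := fun j => {a | j < (hits A a).card} with hY
  set X : ℕ → Set M := fun j => {a | N ≤ (hits A a).card + j} with hX
  have hcount : ∑ j ∈ Finset.range N, ((X j).ncard + (Y j).ncard) = 2 * (Fintype.card Mˣ * A.ncard) := by
    rw [← sum_hits A, Finset.sum_add_distrib]
    have h1 : ∑ j ∈ Finset.range N, (Y j).ncard = ∑ a : M, (hits A a).card := by
      have : ∀ j, (Y j).ncard = ∑ a : M, if j < (hits A a).card then 1 else 0 := by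
        intro j
        rw [Finset.sum_boole, Set.ncard_eq_toFinset_card']
        simp [hY]
      simp_rw [this]
      rw [Finset.sum_comm]
      exact Finset.sum_congr rfl (fun a _ => count_lt N _ (hkN a))
    have h2 : ∑ j ∈ Finset.range N, (X j).ncard = ∑ a : M, (hits A a).card := by
      have : ∀ j, (X j).ncard = ∑ a : M, if N ≤ (hits A a).card + j then 1 else 0 := by
        intro j
        rw [Finset.sum_boole, Set.ncard_eq_toFinset_card']
        simp [hX]
      simp_rw [this]
      rw [Finset.sum_comm]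
      exact Finset.sum_congr rfl (fun a _ => count_rev N _ (hkN a))
    rw [h1, h2]
    ring
  have hinvY : ∀ j (u : Mˣ) (a : M), a ∈ Y j → (u : M) * a ∈ Y j := by
    intro j u a ha
    simp only [hY, Set.mem_ofPred_eq] at ha ⊢
    rwa [hits_unit]
  have hinvX : ∀ j (u : Mˣ) (a : M), a ∈ X j → (u : M) * a ∈ X j := by
    intro j u a ha
    simp only [hX, Set.mem_ofPred_eq] at ha ⊢
    rwa [hits_unit]
  -- choose j
  obtain ⟨j, hj, hjle⟩ : ∃ j ∈ Finset.range N,
      2 * A.ncard ≤ Fintype.card G * ((X j).ncard + (Y j).ncard) := by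
    by_contra hcon
    push Not at hcon
    have h1 : ∑ j ∈ Finset.range N, Fintype.card G * ((X j).ncard + (Y j).ncard) <
        ∑ j ∈ Finset.range N, 2 * A.ncard := by
      apply Finset.sum_lt_sum_of_nonempty
      · exact ⟨0, Finset.mem_range.2 hNpos⟩
      · exact hcon
    rw [← Finset.mul_sum, hcount, Finset.sum_const, Finset.card_range, smul_eq_mul, hN,
      Fintype.card_prod] at h1
    apply lt_irrefl _ (h1.trans_le (le_of_eq _))
    ring
  rw [Finset.mem_range] at hj
  -- the symmetric choice
  have hadm : ∀ j, 2 * j < N → X j ⊆ Y j ∧ Admissible (X j) (Y j) := by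
    intro j hj
    refine ⟨?_, ?_, ?_, ?_⟩
    · intro a ha
      simp only [hX, hY, Set.mem_ofPred_eq] at ha ⊢
      omega
    · intro a ha b hb hab
      simp only [hX, Set.mem_ofPred_eq] at ha hb hab
      have := hits_add_le hA a b (by omega)
      omega
    · intro a ha b hb hab
      simp only [hX, hY, Set.mem_ofPred_eq] at ha hb hab
      have := hits_add_le hA a b (by omega)
      omega
    · intro a ha b hb hab
      simp only [hX, hY, Set.mem_ofPred_eq] at ha hb hab
      have := hits_add_le hA a b (by omega)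
      omega
  by_cases h2j : 2 * j < N
  · exact ⟨X j, Y j, (hadm j h2j).1, hinvX j, hinvY j, (hadm j h2j).2, hjle⟩
  · have h3 : 2 * (N - 1 - j) < N := by omega
    have hXY : X (N - 1 - j) = Y j := by
      ext a
      simp only [hX, hY, Set.mem_ofPred_eq]
      omega
    have hYX : Y (N - 1 - j) = X j := by
      ext a
      simp only [hX, hY, Set.mem_ofPred_eq]
      omega
    refine ⟨X (N - 1 - j), Y (N - 1 - j), (hadm _ h3).1, hinvX _, hinvY _, (hadm _ h3).2, ?_⟩
    rw [hXY, hYX, add_comm]
    exact hjle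

end Core

end Pool.Agent.Helper88_PF
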