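import Pool.Agent.Helper88_PF.Core

/-!
# The product-free density `D n` and the auxiliary density `Dstar n`
-/

namespace Pool.Agent.Helper88_PF

/-- `D n` is the maximum of `|A| / n` over all product-free subsets `A` of `ℤ/nℤ`. -/
noncomputable def D (n : ℕ) : ℝ :=
  sSup {x : ℝ | ∃ A : Set (ZMod n), ProductFree A ∧ x = (A.ncard : ℝ) / n}

/-- `Dstar n` is the maximum of `(|X| + |Y|) / (2 n)` over all admissible pairs `(X, Y)` of subsets
of `ℤ/nℤ`. -/
noncomputable def Dstar (n : ℕ) : ℝ :=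
  sSup {x : ℝ | ∃ X Y : Set (ZMod n), Admissible X Y ∧ x = ((X.ncard : ℝ) + Y.ncard) / (2 * n)}

theorem D_finite (n : ℕ) (hn : n ≠ 0) :
    {x : ℝ | ∃ A : Set (ZMod n), ProductFree A ∧ x = (A.ncard : ℝ) / n}.Finite := by
  have : NeZero n := ⟨hn⟩
  apply (Set.finite_range (fun A : Set (ZMod n) => (A.ncard : ℝ) / n)).subset
  rintro x ⟨A, _, rfl⟩
  exact ⟨A, rfl⟩

theorem Dstar_finite (n : ℕ) (hn : n ≠ 0) :
    {x : ℝ | ∃ X Y : Set (ZMod n), Admissible X Y ∧
      x = ((X.ncard : ℝ) + Y.ncard) / (2 * n)}.Finite := by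
  have : NeZero n := ⟨hn⟩
  apply (Set.finite_range (fun A : Set (ZMod n) × Set (ZMod n) =>
    ((A.1.ncard : ℝ) + A.2.ncard) / (2 * n))).subset
  rintro x ⟨X, Y, _, rfl⟩
  exact ⟨(X, Y), rfl⟩

theorem le_D {n : ℕ} (hn : n ≠ 0) {A : Set (ZMod n)} (hA : ProductFree A) :
    (A.ncard : ℝ) / n ≤ D n :=
  le_csSup (D_finite n hn).bddAbove ⟨A, hA, rfl⟩

theorem le_Dstar {n : ℕ} (hn : n ≠ 0) {X Y : Set (ZMod n)} (h : Admissible X Y) :
    ((X.ncard : ℝ) + Y.ncard) / (2 * n) ≤ Dstar n :=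
  le_csSup (Dstar_finite n hn).bddAbove ⟨X, Y, h, rfl⟩

theorem exists_D {n : ℕ} (hn : n ≠ 0) :
    ∃ A : Set (ZMod n), ProductFree A ∧ D n = (A.ncard : ℝ) / n := by
  have h := Set.Nonempty.csSup_mem (s := {x : ℝ | ∃ A : Set (ZMod n), ProductFree A ∧
    x = (A.ncard : ℝ) / n}) ⟨_, ∅, fun a ha => absurd ha (Set.notMem_empty a), rfl⟩ (D_finite n hn)
  exact h

theorem exists_Dstar {n : ℕ} (hn : n ≠ 0) :
    ∃ X Y : Set (ZMod n), Admissible X Y ∧ Dstar n = ((X.ncard : ℝ) + Y.ncard) / (2 * n) := by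
  have h := Set.Nonempty.csSup_mem (s := {x : ℝ | ∃ X Y : Set (ZMod n), Admissible X Y ∧
    x = ((X.ncard : ℝ) + Y.ncard) / (2 * n)}) ⟨_, ∅, ∅, ⟨fun a ha => absurd ha (Set.notMem_empty a),
      fun a ha => absurd ha (Set.notMem_empty a), fun a ha => absurd ha (Set.notMem_empty a)⟩, rfl⟩
      (Dstar_finite n hn)
  exact h

theorem D_le {n : ℕ} (hn : n ≠ 0) {c : ℝ}
    (h : ∀ A : Set (ZMod n), ProductFree A → (A.ncard : ℝ) ≤ c * n) : D n ≤ c := by
  obtain ⟨A, hA, hD⟩ := exists_D hn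
  rw [hD, div_le_iff₀ (by positivity)]
  exact h A hA

theorem D_nonneg {n : ℕ} (hn : n ≠ 0) : 0 ≤ D n := by
  obtain ⟨A, hA, hD⟩ := exists_D hn
  rw [hD]
  positivity

theorem ncard_le {n : ℕ} (hn : n ≠ 0) (A : Set (ZMod n)) : A.ncard ≤ n := by
  have : NeZero n := ⟨hn⟩
  calc A.ncard ≤ (Set.univ : Set (ZMod n)).ncard := Set.ncard_le_ncard (Set.subset_univ _)
    _ = n := by rw [Set.ncard_univ, Nat.card_eq_fintype_card, ZMod.card]

theorem Dstar_le_one {n : ℕ} (hn : n ≠ 0) : Dstar n ≤ 1 := by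
  obtain ⟨X, Y, h, hD⟩ := exists_Dstar hn
  rw [hD, div_le_iff₀ (by positivity)]
  have h1 : (X.ncard : ℝ) ≤ n := by exact_mod_cast ncard_le hn X
  have h2 : (Y.ncard : ℝ) ≤ n := by exact_mod_cast ncard_le hn Y
  linarith

/-- Every product-free subset of `M × G` with `M = ℤ/nℤ` has density at most `c`, for every finite
abelian group `G`. -/
def Bounded (c : ℝ) (n : ℕ) : Prop :=
  ∀ (G : Type) [CommGroup G] [Fintype G] (A : Set (ZMod n × G)), ProductFree A →
    (A.ncard : ℝ) ≤ c * (n * Fintype.card G)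

theorem bounded_Dstar {n : ℕ} (hn : n ≠ 0) : Bounded (Dstar n) n := by
  intro G _ _ A hA
  have : NeZero n := ⟨hn⟩
  obtain ⟨X, Y, hXY, hX, hY, hadm, hle⟩ := core hA
  have h1 := le_Dstar hn hadm
  rw [div_le_iff₀ (by positivity)] at h1
  have h2 : (2 : ℝ) * A.ncard ≤ Fintype.card G * (X.ncard + Y.ncard) := by exact_mod_cast hle
  have h3 : (Fintype.card G : ℝ) * (X.ncard + Y.ncard) ≤ Fintype.card G * (Dstar n * (2 * n)) :=
    mul_le_mul_of_nonneg_left h1 (by positivity)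
  linarith

theorem D_le_of_bounded {c : ℝ} {n : ℕ} (hn : n ≠ 0) (h : Bounded c n) : D n ≤ c := by
  apply D_le hn
  intro A hA
  have h1 := h Unit {x | x.1 ∈ A} (fun a ha b hb hab => hA a.1 ha b.1 hb hab)
  have h2 : ({x : ZMod n × Unit | x.1 ∈ A}).ncard = A.ncard := by
    apply Set.ncard_congr (fun x _ => x.1)
    · intro a ha
      exact ha
    · rintro ⟨a, _⟩ ⟨b, _⟩ _ _ h
      simp only at h
      rw [h]
    · intro b hb
      exact ⟨(b, ()), hb, rfl⟩
  rw [h2] at h1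
  simpa using h1

/-- The set `X × {1} ∪ Y × {-1}` attached to an admissible pair. -/
theorem exists_pairSet {n : ℕ} (hn : n ≠ 0) {X Y : Set (ZMod n)} (hadm : Admissible X Y) :
    ∃ A : Set (ZMod n × Multiplicative (ZMod 2)), ProductFree A ∧ A.ncard = X.ncard + Y.ncard := by
  have : NeZero n := ⟨hn⟩
  set A : Set (ZMod n × Multiplicative (ZMod 2)) :=
    {x | (x.2 = 1 ∧ x.1 ∈ X) ∨ (x.2 ≠ 1 ∧ x.1 ∈ Y)} with hA
  have hne : ∀ a b : Multiplicative (ZMod 2), a ≠ 1 → b ≠ 1 → a * b = 1 := by decide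
  have hpf : ProductFree A := by
    rintro ⟨a, g⟩ ha ⟨b, g'⟩ hb hab
    simp only [hA, Set.mem_ofPred_eq, Prod.mk_mul_mk] at ha hb hab
    rcases ha with ⟨h1, h2⟩ | ⟨h1, h2⟩ <;> rcases hb with ⟨h3, h4⟩ | ⟨h3, h4⟩
    · rw [h1, h3, one_mul] at hab
      rcases hab with ⟨_, h5⟩ | ⟨h5, _⟩
      · exact hadm.1 a h2 b h4 h5
      · exact h5 rfl
    · rw [h1, one_mul] at hab
      rcases hab with ⟨h5, _⟩ | ⟨_, h5⟩
      · exact h3 h5
      · exact hadm.2.1 a h2 b h4 h5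
    · rw [h3, mul_one] at hab
      rcases hab with ⟨h5, _⟩ | ⟨_, h5⟩
      · exact h1 h5
      · rw [mul_comm] at h5
        exact hadm.2.1 b h4 a h2 h5
    · rw [hne g g' h1 h3] at hab
      rcases hab with ⟨_, h5⟩ | ⟨h5, _⟩
      · exact hadm.2.2 a h2 b h4 h5
      · exact h5 rfl
  refine ⟨A, hpf, ?_⟩
  have h3 : A = (fun x : ZMod n => (x, (1 : Multiplicative (ZMod 2)))) '' X ∪
      (fun x : ZMod n => (x, Multiplicative.ofAdd (1 : ZMod 2))) '' Y := by
    ext ⟨a, g⟩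
    simp only [hA, Set.mem_ofPred_eq, Set.mem_union, Set.mem_image, Prod.mk.injEq]
    have hg : g = 1 ∨ g = Multiplicative.ofAdd (1 : ZMod 2) := by
      revert g; decide
    have h01 : Multiplicative.ofAdd (1 : ZMod 2) ≠ 1 := by decide
    rcases hg with rfl | rfl
    · constructor
      · rintro (⟨_, h⟩ | ⟨h, _⟩)
        · exact Or.inl ⟨a, h, rfl, rfl⟩
        · exact absurd rfl h
      · rintro (⟨b, hb, rfl, _⟩ | ⟨b, hb, rfl, h⟩)
        · exact Or.inl ⟨rfl, hb⟩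
        · exact absurd h h01
    · constructor
      · rintro (⟨h, _⟩ | ⟨_, h⟩)
        · exact absurd h h01
        · exact Or.inr ⟨a, h, rfl, rfl⟩
      · rintro (⟨b, hb, rfl, h⟩ | ⟨b, hb, rfl, _⟩)
        · exact absurd h.symm h01
        · exact Or.inr ⟨h01, hb⟩
  rw [h3, Set.ncard_union_eq, Set.ncard_image_of_injective, Set.ncard_image_of_injective]
  · intro a b hab; simpa using hab
  · intro a b hab; simpa using hab
  · rw [Set.disjoint_left]
    rintro _ ⟨a, _, rfl⟩ ⟨b, _, h⟩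
    have h01 : Multiplicative.ofAdd (1 : ZMod 2) ≠ 1 := by decide
    exact h01 (Prod.mk.inj h).2

theorem card_two : (Fintype.card (Multiplicative (ZMod 2)) : ℝ) = 2 := by
  have : Fintype.card (Multiplicative (ZMod 2)) = 2 := by decide
  rw [this]; norm_num

theorem Dstar_le_of_bounded {c : ℝ} {n : ℕ} (hn : n ≠ 0) (h : Bounded c n) : Dstar n ≤ c := by
  have : NeZero n := ⟨hn⟩
  obtain ⟨X, Y, hadm, hD⟩ := exists_Dstar hn
  rw [hD, div_le_iff₀ (by positivity)]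
  obtain ⟨A, hpf, h2⟩ := exists_pairSet hn hadm
  have h1 := h _ A hpf
  rw [h2, card_two] at h1
  push_cast at h1
  linarith

/-- `Dstar n` is attained by an admissible pair `X ⊆ Y` of sets invariant under the units. -/
theorem exists_inv_pair {n : ℕ} (hn : n ≠ 0) : ∃ X Y : Set (ZMod n), X ⊆ Y ∧
    (∀ (u : (ZMod n)ˣ) (a : ZMod n), a ∈ X → (u : ZMod n) * a ∈ X) ∧
    (∀ (u : (ZMod n)ˣ) (a : ZMod n), a ∈ Y → (u : ZMod n) * a ∈ Y) ∧
    Admissible X Y ∧ Dstar n * (2 * n) ≤ (X.ncard : ℝ) + Y.ncard := by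
  have : NeZero n := ⟨hn⟩
  obtain ⟨X, Y, hadm, hD⟩ := exists_Dstar hn
  obtain ⟨A, hpf, h2⟩ := exists_pairSet hn hadm
  obtain ⟨X', Y', hXY, hX, hY, hadm', hle⟩ := core hpf
  refine ⟨X', Y', hXY, hX, hY, hadm', ?_⟩
  rw [h2] at hle
  have h3 : (2 : ℝ) * (X.ncard + Y.ncard) ≤
      Fintype.card (Multiplicative (ZMod 2)) * (X'.ncard + Y'.ncard) := by exact_mod_cast hle
  rw [card_two] at h3
  rw [hD, div_mul_cancel₀ _ (by positivity)]
  linarith

open Classical in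
theorem bounded_step {c : ℝ} {n p : ℕ} (hn : n ≠ 0) (hp : p.Prime) (hpn : ¬ p ∣ n)
    (h : Bounded c n) : Bounded c (p * n) := by
  intro G _ _ A hA
  have : NeZero n := ⟨hn⟩
  have : Fact p.Prime := ⟨hp⟩
  have : NeZero (p * n) := ⟨mul_ne_zero hp.ne_zero hn⟩
  have hcop : Nat.Coprime p n := (Nat.Prime.coprime_iff_not_dvd hp).2 hpn
  set e : ZMod (p * n) ≃+* ZMod p × ZMod n := ZMod.chineseRemainder hcop with he
  set A0 : Set (ZMod n × G) := {x | (e.symm (0, x.1), x.2) ∈ A} with hA0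
  set A1 : Set (ZMod n × ((ZMod p)ˣ × G)) := {x | (e.symm ((x.2.1 : ZMod p), x.1), x.2.2) ∈ A}
    with hA1
  have hpf0 : ProductFree A0 := by
    rintro ⟨a, g⟩ ha ⟨b, g'⟩ hb hab
    simp only [hA0, Set.mem_ofPred_eq, Prod.mk_mul_mk] at ha hb hab
    apply hA _ ha _ hb
    rw [Prod.mk_mul_mk, ← map_mul, Prod.mk_mul_mk, zero_mul]
    exact hab
  have hpf1 : ProductFree A1 := by
    rintro ⟨a, u, g⟩ ha ⟨b, u', g'⟩ hb hab
    simp only [hA1, Set.mem_ofPred_eq, Prod.mk_mul_mk] at ha hb hab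
    apply hA _ ha _ hb
    rw [Prod.mk_mul_mk, ← map_mul, Prod.mk_mul_mk, ← Units.val_mul]
    exact hab
  have h0 := h G A0 hpf0
  have h1 := h ((ZMod p)ˣ × G) A1 hpf1
  have hcard : A.ncard = A0.ncard + A1.ncard := by
    have hc : ∀ {α : Type} [Fintype α] (S : Set α), S.ncard = ∑ x : α, if x ∈ S then 1 else 0 := by
      intro α _ S
      rw [Finset.sum_boole, Set.ncard_eq_toFinset_card']
      simp
    rw [hc A, hc A0, hc A1]
    have h2 : ∑ x : ZMod (p * n) × G, (if x ∈ A then 1 else 0) =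
        ∑ y : ZMod p, ∑ x : ZMod n × G, if (e.symm (y, x.1), x.2) ∈ A then 1 else 0 := by
      rw [Fintype.sum_prod_type]
      rw [← Fintype.sum_equiv e.symm.toEquiv (fun y => ∑ g : G, if (e.symm y, g) ∈ A then 1 else 0)
        (fun x => ∑ g : G, if (x, g) ∈ A then 1 else 0) (fun y => rfl)]
      rw [Fintype.sum_prod_type]
      apply Finset.sum_congr rfl
      intro y _
      rw [Fintype.sum_prod_type]
    rw [h2, Fintype.sum_eq_add_sum_subtype_ne _ (0 : ZMod p)]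
    congr 1
    rw [← Fintype.sum_equiv (unitsEquivNeZero (G₀ := ZMod p)) (fun u : (ZMod p)ˣ =>
      ∑ x : ZMod n × G, if (e.symm ((u : ZMod p), x.1), x.2) ∈ A then 1 else 0) _ (fun u => rfl)]
    rw [Finset.sum_comm]
    rw [Fintype.sum_prod_type (f := fun x : ZMod n × ((ZMod p)ˣ × G) => if x ∈ A1 then 1 else 0)]
    rw [Fintype.sum_prod_type]
    apply Finset.sum_congr rfl
    intro a _
    rw [Fintype.sum_prod_type, Finset.sum_comm]
    rfl
  rw [hcard]
  push_cast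
  have h3 : (Fintype.card ((ZMod p)ˣ × G) : ℝ) = (p - 1) * Fintype.card G := by
    rw [Fintype.card_prod, ZMod.card_units]
    push_cast [hp.one_le]
    ring
  rw [h3] at h1
  nlinarith [h0, h1]

theorem bounded_mul {c : ℝ} {n : ℕ} (hn : n ≠ 0) (h : Bounded c n) :
    ∀ t : ℕ, Squarefree t → Nat.Coprime n t → Bounded c (n * t) := by
  intro t
  induction t using induction_on_primes with
  | zero => intro h0; exact absurd h0 not_squarefree_zero
  | one => intro _ _; rwa [mul_one]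
  | prime_mul p a hp ih =>
    intro hsq hcop
    have hsqa : Squarefree a := hsq.squarefree_of_dvd (Dvd.intro_left _ rfl)
    have ha0 : a ≠ 0 := hsqa.ne_zero
    have hcopa : Nat.Coprime n a := Nat.Coprime.coprime_mul_left_right hcop
    have hcopp : Nat.Coprime n p := Nat.Coprime.coprime_mul_right_right hcop
    have h1 := ih hsqa hcopa
    have hpa : ¬ p ∣ a := by
      intro hpa
      obtain ⟨b, rfl⟩ := hpa
      have : IsUnit p := hsq p ⟨b, by ring⟩
      exact hp.one_lt.ne' (Nat.isUnit_iff.1 this)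
    have hpn : ¬ p ∣ n * a := by
      intro h2
      rcases (Nat.Prime.dvd_mul hp).1 h2 with h3 | h3
      · exact (Nat.Prime.coprime_iff_not_dvd hp).1 hcopp.symm h3
      · exact hpa h3
    have h2 := bounded_step (mul_ne_zero hn ha0) hp hpn h1
    have h3 : p * (n * a) = n * (p * a) := by ring
    rwa [h3] at h2

/-- `D (n t) ≤ Dstar n` for every squarefree `t` coprime to `n`. -/
theorem D_mul_le_Dstar {n t : ℕ} (hn : n ≠ 0) (ht : Squarefree t) (hnt : Nat.Coprime n t) :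
    D (n * t) ≤ Dstar n :=
  D_le_of_bounded (mul_ne_zero hn ht.ne_zero) (bounded_mul hn (bounded_Dstar hn) t ht hnt)

theorem Dstar_mul_le {n t : ℕ} (hn : n ≠ 0) (ht : Squarefree t) (hnt : Nat.Coprime n t) :
    Dstar (n * t) ≤ Dstar n :=
  Dstar_le_of_bounded (mul_ne_zero hn ht.ne_zero) (bounded_mul hn (bounded_Dstar hn) t ht hnt)

end Pool.Agent.Helper88_PF
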