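import Pool.Agent.Helper88_PF.Lower

/-!
# Natural densities
-/

namespace Pool.Agent.Helper88_PF

open Filter Topology

/-- The set `N(u)` of the positive integers `n` with `D n > u`. -/
def NSet (u : ℝ) : Set ℕ := {n | 1 ≤ n ∧ u < D n}

/-- The set `S` of positive integers has natural density `δ`. -/
def HasNaturalDensity (S : Set ℕ) (δ : ℝ) : Prop :=
  Tendsto (fun x : ℕ => ((S ∩ Set.Icc 1 x).ncard : ℝ) / x) atTop (𝓝 δ)

open Classical in
theorem ncard_eq (S : Set ℕ) (x : ℕ) :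
    (S ∩ Set.Icc 1 x).ncard = ((Finset.Ioc 0 x).filter (fun n => n ∈ S)).card := by
  rw [← Set.ncard_coe_finset]
  congr 1
  ext n
  simp only [Set.mem_inter_iff, Set.mem_Icc, Finset.coe_filter, Finset.mem_Ioc, Set.mem_ofPred_eq]
  constructor
  · rintro ⟨h1, h2, h3⟩
    exact ⟨⟨by omega, h3⟩, h1⟩
  · rintro ⟨⟨h1, h2⟩, h3⟩
    exact ⟨h3, by omega, h2⟩

open Classical in
theorem square_count (x y : ℕ) (hy : y ≠ 0) :
    (((Finset.Ioc 0 x).filter (fun n => ∃ d, y < d ∧ d ^ 2 ∣ n)).card : ℝ) ≤ x / y := by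
  by_cases hxy : x < y
  · have : (Finset.Ioc 0 x).filter (fun n => ∃ d, y < d ∧ d ^ 2 ∣ n) = ∅ := by
      rw [Finset.filter_eq_empty_iff]
      rintro n hn ⟨d, hd, hdn⟩
      rw [Finset.mem_Ioc] at hn
      have h1 := Nat.le_of_dvd hn.1 hdn
      have h2 : d ≤ d ^ 2 := Nat.le_self_pow (by norm_num) d
      omega
    rw [this]
    simp
    positivity
  · push Not at hxy
    have h1 : (Finset.Ioc 0 x).filter (fun n => ∃ d, y < d ∧ d ^ 2 ∣ n) ⊆
        (Finset.Ioc y x).biUnion (fun d => (Finset.Ioc 0 x).filter (fun n => d ^ 2 ∣ n)) := by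
      intro n hn
      rw [Finset.mem_filter, Finset.mem_Ioc] at hn
      obtain ⟨⟨h0, hx⟩, d, hd, hdn⟩ := hn
      rw [Finset.mem_biUnion]
      refine ⟨d, ?_, ?_⟩
      · rw [Finset.mem_Ioc]
        have h1 := Nat.le_of_dvd h0 hdn
        have h2 : d ≤ d ^ 2 := Nat.le_self_pow (by norm_num) d
        exact ⟨hd, by omega⟩
      · rw [Finset.mem_filter, Finset.mem_Ioc]
        exact ⟨⟨h0, hx⟩, hdn⟩
    have h2 : (((Finset.Ioc 0 x).filter (fun n => ∃ d, y < d ∧ d ^ 2 ∣ n)).card : ℝ) ≤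
        ∑ d ∈ Finset.Ioc y x, (x : ℝ) * ((d : ℝ) ^ 2)⁻¹ := by
      calc (((Finset.Ioc 0 x).filter (fun n => ∃ d, y < d ∧ d ^ 2 ∣ n)).card : ℝ)
          ≤ (((Finset.Ioc y x).biUnion
            (fun d => (Finset.Ioc 0 x).filter (fun n => d ^ 2 ∣ n))).card : ℝ) := by
            exact_mod_cast Finset.card_le_card h1
        _ ≤ ∑ d ∈ Finset.Ioc y x, (((Finset.Ioc 0 x).filter (fun n => d ^ 2 ∣ n)).card : ℝ) := by
            exact_mod_cast Finset.card_biUnion_le
        _ ≤ ∑ d ∈ Finset.Ioc y x, (x : ℝ) * ((d : ℝ) ^ 2)⁻¹ := by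
            apply Finset.sum_le_sum
            intro d hd
            rw [Nat.Ioc_filter_dvd_card_eq_div]
            have := Nat.cast_div_le (α := ℝ) (m := x) (n := d ^ 2)
            rw [← div_eq_mul_inv]
            exact_mod_cast this
    refine h2.trans ?_
    rw [← Finset.mul_sum]
    have h3 := sum_Ioc_inv_sq_le_sub (α := ℝ) hy hxy
    have h4 : (0 : ℝ) ≤ (x : ℝ)⁻¹ := by positivity
    calc (x : ℝ) * ∑ d ∈ Finset.Ioc y x, ((d : ℝ) ^ 2)⁻¹ ≤ x * (y : ℝ)⁻¹ := by
          apply mul_le_mul_of_nonneg_left _ (by positivity)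
          linarith
      _ = x / y := by rw [div_eq_mul_inv]

open Classical in
/-- the counting function of a periodic set -/
theorem periodic_count (P : Set ℕ) (M : ℕ) (hM : M ≠ 0) (hP : ∀ n, n + M ∈ P ↔ n ∈ P) (x : ℕ) :
    |(((Finset.Ioc 0 x).filter (fun n => n ∈ P)).card : ℝ) -
      x * ((Nat.count (fun n => n ∈ P) M : ℝ) / M)| ≤ M := by
  set K := Nat.count (fun n => n ∈ P) M with hK
  have hper : Function.Periodic (fun n => n ∈ P) M := fun n => propext (hP n)
  have hKM : K ≤ M := Nat.count_le _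
  have h1 : ∀ q : ℕ, ((Finset.Ioc 0 (q * M)).filter (fun n => n ∈ P)).card = q * K := by
    intro q
    induction q with
    | zero => simp
    | succ q ih =>
      have h2 : Finset.Ioc 0 ((q + 1) * M) = Finset.Ioc 0 (q * M) ∪
          Finset.Ico (q * M + 1) (q * M + 1 + M) := by
        ext n
        simp only [Finset.mem_Ioc, Finset.mem_union, Finset.mem_Ico]
        have : (q + 1) * M = q * M + M := by ring
        omega
      have h3 : Disjoint (Finset.Ioc 0 (q * M)) (Finset.Ico (q * M + 1) (q * M + 1 + M)) := by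
        rw [Finset.disjoint_left]
        intro n
        simp only [Finset.mem_Ioc, Finset.mem_Ico]
        omega
      rw [h2, Finset.filter_union, Finset.card_union_of_disjoint
        (Finset.disjoint_filter_filter h3), ih, Nat.filter_Ico_card_eq_of_periodic _ _ _ hper]
      ring
  set q := x / M with hq
  have hMpos : 0 < M := Nat.pos_of_ne_zero hM
  have hqx : q * M ≤ x := Nat.div_mul_le_self x M
  have hqx2 : x < q * M + M := by
    have := Nat.lt_div_mul_add hMpos (a := x)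
    rwa [← hq] at this
  have hlow : q * K ≤ ((Finset.Ioc 0 x).filter (fun n => n ∈ P)).card := by
    rw [← h1 q]
    apply Finset.card_le_card
    apply Finset.filter_subset_filter
    apply Finset.Ioc_subset_Ioc_right hqx
  have hup : ((Finset.Ioc 0 x).filter (fun n => n ∈ P)).card ≤ (q + 1) * K := by
    rw [← h1 (q + 1)]
    apply Finset.card_le_card
    apply Finset.filter_subset_filter
    apply Finset.Ioc_subset_Ioc_right
    have : (q + 1) * M = q * M + M := by ring
    omega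
  have hM' : (0 : ℝ) < M := by exact_mod_cast hMpos
  have hlow' : (q : ℝ) * K ≤ (((Finset.Ioc 0 x).filter (fun n => n ∈ P)).card : ℝ) := by
    exact_mod_cast hlow
  have hup' : (((Finset.Ioc 0 x).filter (fun n => n ∈ P)).card : ℝ) ≤ ((q : ℝ) + 1) * K := by
    exact_mod_cast hup
  have hx1 : (q : ℝ) * M ≤ x := by exact_mod_cast hqx
  have hx2 : (x : ℝ) ≤ q * M + M := by exact_mod_cast hqx2.le
  have hKM' : (K : ℝ) ≤ M := by exact_mod_cast hKM
  have hK0 : (0 : ℝ) ≤ K := by positivity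
  have h5 : (x : ℝ) * (K / M) ≤ (q + 1) * K := by
    rw [← mul_div_assoc, div_le_iff₀ hM']
    nlinarith
  have h6 : (q : ℝ) * K ≤ (x : ℝ) * (K / M) := by
    rw [← mul_div_assoc, le_div_iff₀ hM']
    nlinarith
  rw [abs_le]
  constructor <;> nlinarith

/-- If no square `d ^ 2` with `d > y` divides `n`, then `n = g t` with `g = gcd (n, M)`, `t`
squarefree and coprime to `g`, where `M = (y!) ^ (2 y + 2)`. -/
theorem decomposition {y n : ℕ} (hn : 1 ≤ n) (h : ¬ ∃ d, y < d ∧ d ^ 2 ∣ n) :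
    ∃ t, n = n.gcd (y.factorial ^ (2 * y + 2)) * t ∧ Squarefree t ∧
      Nat.Coprime (n.gcd (y.factorial ^ (2 * y + 2))) t ∧
      ∀ p, p.Prime → p ∣ t → y < p := by
  set M := y.factorial ^ (2 * y + 2) with hM
  obtain ⟨t, ht⟩ := Nat.gcd_dvd_left n M
  have hn0 : n ≠ 0 := by omega
  have hkey : ∀ p, p.Prime → p ∣ t → y < p := by
    intro p hp hpt
    by_contra hpy
    push Not at hpy
    -- p ^ (2 y + 2) divides M
    have h1 : p ^ (2 * y + 2) ∣ M := pow_dvd_pow_of_dvd (hp.dvd_factorial.2 hpy) _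
    -- the power of p in gcd
    have h2 : ¬ p ^ (2 * y + 2) ∣ n := by
      intro h3
      apply h
      refine ⟨p ^ (y + 1), ?_, ?_⟩
      · calc y < y + 1 := Nat.lt_succ_self y
          _ < 2 ^ (y + 1) := Nat.lt_two_pow_self
          _ ≤ p ^ (y + 1) := Nat.pow_le_pow_left hp.two_le _
      · rw [← pow_mul]
        have : (y + 1) * 2 = 2 * y + 2 := by ring
        rwa [this]
    set v := n.factorization p with hv
    have hv1 : v < 2 * y + 2 := by
      by_contra h3
      push Not at h3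
      exact h2 ((hp.pow_dvd_iff_le_factorization hn0).2 h3)
    have hv2 : p ^ v ∣ n.gcd M := Nat.dvd_gcd ((hp.pow_dvd_iff_le_factorization hn0).2 le_rfl)
      ((pow_dvd_pow p hv1.le).trans h1)
    have hv3 : p ^ (v + 1) ∣ n := by
      rw [ht, pow_succ]
      exact mul_dvd_mul hv2 hpt
    have := (hp.pow_dvd_iff_le_factorization hn0).1 hv3
    omega
  refine ⟨t, ht, ?_, ?_, hkey⟩
  · rw [Nat.squarefree_iff_prime_squarefree]
    intro p hp hpp
    have h1 := hkey p hp ((dvd_mul_right p p).trans hpp)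
    apply h
    refine ⟨p, h1, ?_⟩
    rw [ht, sq]
    exact hpp.mul_left _
  · rw [Nat.coprime_iff_gcd_eq_one]
    by_contra hg
    obtain ⟨p, hp, hpg⟩ := Nat.exists_prime_and_dvd hg
    have h1 := hkey p hp (hpg.trans (Nat.gcd_dvd_right _ _))
    have h2 : p ∣ M := (hpg.trans (Nat.gcd_dvd_left _ _)).trans (Nat.gcd_dvd_right _ _)
    have h3 := hp.dvd_of_dvd_pow h2
    rw [hp.dvd_factorial] at h3
    omega

open Classical in
/-- The counting function of `N(u)` is within `ε x` of a linear function, for large `x`. -/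
theorem nset_approx (u : ℝ) {ε : ℝ} (hε : 0 < ε) :
    ∃ c : ℝ, ∃ x₀ : ℕ, ∀ x : ℕ, x₀ ≤ x → |((NSet u ∩ Set.Icc 1 x).ncard : ℝ) / x - c| ≤ ε := by
  obtain ⟨y, hy⟩ := exists_nat_gt (2 / ε)
  have hy0 : (0 : ℝ) < y := lt_trans (by positivity) hy
  have hyne : y ≠ 0 := by
    rintro rfl
    simp at hy0
  set M := y.factorial ^ (2 * y + 2) with hM
  have hM0 : M ≠ 0 := pow_ne_zero _ (Nat.factorial_ne_zero y)
  set P : Set ℕ := {n | u < Dstar (n.gcd M)} with hP
  have hPer : ∀ n, n + M ∈ P ↔ n ∈ P := by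
    intro n
    simp only [hP, Set.mem_ofPred_eq, Nat.gcd_add_self_left]
  -- the bound for the primes
  have hB : ∃ B : ℕ, ∀ g, g ∣ M → u < Dstar g → ∀ p : ℕ, p.Prime → B ≤ p → ¬ p ∣ g →
      u < D (p * g) := by
    have h1 : ∀ g : ℕ, ∃ b : ℕ, g ∣ M → u < Dstar g → ∀ p : ℕ, p.Prime → b ≤ p → ¬ p ∣ g →
        u < D (p * g) := by
      intro g
      by_cases hg : g ∣ M ∧ u < Dstar g
      · have hg0 : g ≠ 0 := fun h0 => hM0 (Nat.eq_zero_of_zero_dvd (h0 ▸ hg.1))
        obtain ⟨b, hb⟩ := exists_prime_bound hg0 hg.2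
        exact ⟨b, fun _ _ => hb⟩
      · exact ⟨0, fun h2 h3 => absurd ⟨h2, h3⟩ hg⟩
    choose b hb using h1
    refine ⟨∑ g ∈ M.divisors, b g, fun g hg hu p hp hBp => hb g hg hu p hp (le_trans ?_ hBp)⟩
    exact Finset.single_le_sum (f := b) (fun _ _ => Nat.zero_le _) (Nat.mem_divisors.2 ⟨hg, hM0⟩)
  obtain ⟨B, hB⟩ := hB
  set C := M * B.factorial with hC
  set E : ℕ → Prop := fun n => ∃ d, y < d ∧ d ^ 2 ∣ n with hE
  -- the two comparisons
  have hSP : ∀ n, 1 ≤ n → ¬ E n → n ∈ NSet u → n ∈ P := by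
    intro n hn hEn hnS
    obtain ⟨t, ht, hsq, hcop, -⟩ := decomposition hn hEn
    have hg0 : n.gcd M ≠ 0 := by
      intro h0
      rw [Nat.gcd_eq_zero_iff] at h0
      exact hM0 h0.2
    have h1 := D_mul_le_Dstar hg0 hsq hcop
    rw [← ht] at h1
    exact hnS.2.trans_le h1
  have hPS : ∀ n, 1 ≤ n → ¬ E n → C < n → n ∈ P → n ∈ NSet u := by
    intro n hn hEn hCn hnP
    obtain ⟨t, ht, hsq, hcop, -⟩ := decomposition hn hEn
    have hg0 : n.gcd M ≠ 0 := by
      intro h0
      rw [Nat.gcd_eq_zero_iff] at h0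
      exact hM0 h0.2
    have hgM : n.gcd M ≤ M := Nat.le_of_dvd (Nat.pos_of_ne_zero hM0) (Nat.gcd_dvd_right n M)
    by_cases hall : ∀ p, p.Prime → p ∣ t → p < B
    · exfalso
      have htB : t ∣ B.factorial := by
        rw [← Nat.prod_primeFactors_of_squarefree hsq]
        apply Finset.prod_primes_dvd
        · intro p hp
          exact (Nat.prime_of_mem_primeFactors hp).prime
        · intro p hp
          have hpp := Nat.prime_of_mem_primeFactors hp
          rw [hpp.dvd_factorial]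
          exact (hall p hpp (Nat.dvd_of_mem_primeFactors hp)).le
      have h2 : t ≤ B.factorial := Nat.le_of_dvd (Nat.factorial_pos B) htB
      have h3 : n ≤ C := by
        rw [ht, hC]
        exact Nat.mul_le_mul hgM h2
      omega
    · push Not at hall
      obtain ⟨p, hp, hpt, hBp⟩ := hall
      have hpg : ¬ p ∣ n.gcd M := by
        intro h4
        have h5 : p ∣ Nat.gcd (n.gcd M) t := Nat.dvd_gcd h4 hpt
        rw [Nat.coprime_iff_gcd_eq_one.1 hcop] at h5
        exact hp.one_lt.ne' (Nat.dvd_one.1 h5)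
      have h6 := hB (n.gcd M) (Nat.gcd_dvd_right n M) hnP p hp hBp hpg
      have h7 : p * n.gcd M ∣ n := by
        obtain ⟨r, rfl⟩ := hpt
        refine ⟨r, ?_⟩
        calc n = n.gcd M * (p * r) := ht
          _ = p * n.gcd M * r := by ring
      exact ⟨hn, h6.trans_le (D_mono (by omega) h7)⟩
  -- conclusion
  refine ⟨(Nat.count (fun n => n ∈ P) M : ℝ) / M, ?_⟩
  obtain ⟨x₀, hx₀⟩ := exists_nat_gt ((C + M : ℝ) * (2 / ε))
  refine ⟨max x₀ 1, fun x hx => ?_⟩
  have hx1 : 1 ≤ x := le_trans (le_max_right _ _) hx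
  have hxx₀ : x₀ ≤ x := le_trans (le_max_left _ _) hx
  have hxpos : (0 : ℝ) < x := by exact_mod_cast hx1
  set cS := ((Finset.Ioc 0 x).filter (fun n => n ∈ NSet u)).card with hcS
  set cP := ((Finset.Ioc 0 x).filter (fun n => n ∈ P)).card with hcP
  set cE := ((Finset.Ioc 0 x).filter (fun n => E n)).card with hcE
  have hE' : (cE : ℝ) ≤ x / y := square_count x y hyne
  have hSle : cS ≤ cP + cE := by
    rw [hcS, hcP, hcE]
    refine le_trans (Finset.card_le_card ?_) (Finset.card_union_le _ _)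
    intro n hn
    rw [Finset.mem_filter, Finset.mem_Ioc] at hn
    rw [Finset.mem_union, Finset.mem_filter, Finset.mem_filter, Finset.mem_Ioc]
    by_cases hEn : E n
    · exact Or.inr ⟨hn.1, hEn⟩
    · exact Or.inl ⟨hn.1, hSP n (by omega) hEn hn.2⟩
  have hPle : cP ≤ cS + cE + C := by
    have h1 : (Finset.Ioc 0 x).filter (fun n => n ∈ P) ⊆
        ((Finset.Ioc 0 x).filter (fun n => n ∈ NSet u) ∪ (Finset.Ioc 0 x).filter (fun n => E n)) ∪
          Finset.Ioc 0 C := by
      intro n hn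
      rw [Finset.mem_filter, Finset.mem_Ioc] at hn
      rw [Finset.mem_union, Finset.mem_union, Finset.mem_filter, Finset.mem_filter,
        Finset.mem_Ioc, Finset.mem_Ioc]
      by_cases hEn : E n
      · exact Or.inl (Or.inr ⟨hn.1, hEn⟩)
      · by_cases hCn : C < n
        · exact Or.inl (Or.inl ⟨hn.1, hPS n (by omega) hEn hCn hn.2⟩)
        · exact Or.inr ⟨hn.1.1, by omega⟩
    calc cP ≤ _ := Finset.card_le_card h1
      _ ≤ _ := Finset.card_union_le _ _
      _ ≤ cS + cE + C := by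
        rw [Nat.card_Ioc]
        have := Finset.card_union_le ((Finset.Ioc 0 x).filter (fun n => n ∈ NSet u))
          ((Finset.Ioc 0 x).filter (fun n => E n))
        omega
  have hper := periodic_count P M hM0 hPer x
  rw [← hcP] at hper
  rw [ncard_eq, ← hcS]
  have hSle' : (cS : ℝ) ≤ cP + cE := by exact_mod_cast hSle
  have hPle' : (cP : ℝ) ≤ cS + cE + C := by exact_mod_cast hPle
  rw [abs_le] at hper
  have hmain : |(cS : ℝ) - x * ((Nat.count (fun n => n ∈ P) M : ℝ) / M)| ≤ x / y + C + M := by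
    rw [abs_le]
    constructor <;> linarith [hper.1, hper.2, (Nat.cast_nonneg C : (0 : ℝ) ≤ (C : ℝ))]
  have h8 : (cS : ℝ) / x - (Nat.count (fun n => n ∈ P) M : ℝ) / M =
      ((cS : ℝ) - x * ((Nat.count (fun n => n ∈ P) M : ℝ) / M)) / x := by
    field_simp
  rw [h8, abs_div, abs_of_pos hxpos, div_le_iff₀ hxpos]
  refine hmain.trans ?_
  have h9 : (x : ℝ) / y ≤ ε / 2 * x := by
    rw [div_le_iff₀ hy0]
    have : 1 ≤ ε / 2 * y := by
      rw [div_lt_iff₀ hε] at hy
      linarith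
    nlinarith
  have h10 : (C : ℝ) + M ≤ ε / 2 * x := by
    have h11 : (C + M : ℝ) * (2 / ε) ≤ x := by
      have : (x₀ : ℝ) ≤ x := by exact_mod_cast hxx₀
      linarith
    rw [mul_div_assoc', div_le_iff₀ hε] at h11
    linarith
  linarith

/-- For every real `u`, the set `N(u)` has a natural density. -/
theorem exists_natural_density (u : ℝ) : ∃ δ : ℝ, HasNaturalDensity (NSet u) δ := by
  have hcau : CauchySeq (fun x : ℕ => ((NSet u ∩ Set.Icc 1 x).ncard : ℝ) / x) := by
    rw [Metric.cauchySeq_iff']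
    intro ε hε
    obtain ⟨c, x₀, h⟩ := nset_approx u (show (0 : ℝ) < ε / 3 by positivity)
    refine ⟨x₀, fun n hn => ?_⟩
    have h1 := h n hn
    have h2 := h x₀ le_rfl
    rw [Real.dist_eq]
    rw [abs_le] at h1 h2
    rw [abs_lt]
    constructor <;> linarith [h1.1, h1.2, h2.1, h2.2]
  obtain ⟨δ, hδ⟩ := cauchySeq_tendsto_of_complete hcau
  exact ⟨δ, hδ⟩

end Pool.Agent.Helper88_PF
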