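import Pool.Agent.Helper88_PF.Defs

/-!
# Monotonicity and the lower bound for `D (p n)`
-/

namespace Pool.Agent.Helper88_PF

open Classical in
theorem card_preimage {G H : Type*} [AddCommGroup G] [AddCommGroup H] [Fintype G] [Fintype H]
    (f : G →+ H) (hf : Function.Surjective f) (A : Set H) :
    Fintype.card H * (f ⁻¹' A).ncard = Fintype.card G * A.ncard := by
  have hc : ∀ {α : Type _} [Fintype α] (S : Set α), S.ncard = ∑ x : α, if x ∈ S then 1 else 0 := by
    intro α _ S
    rw [Finset.sum_boole, Set.ncard_eq_toFinset_card']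
    simp
  have hc' : ∀ {α : Type _} [Fintype α] (S : Set α), S.ncard = ∑ x : α, if x ∈ S then 1 else 0 := by
    intro α _ S
    rw [Finset.sum_boole, Set.ncard_eq_toFinset_card']
    simp
  have h1 : ∀ y : H, (f ⁻¹' A).ncard = ∑ x : G, if f x - y ∈ A then 1 else 0 := by
    intro y
    obtain ⟨g, rfl⟩ := hf y
    rw [hc (f ⁻¹' A)]
    rw [← Fintype.sum_equiv (Equiv.subRight g) (fun x => if f x - f g ∈ A then 1 else 0)
      (fun x => if x ∈ f ⁻¹' A then 1 else 0) (fun x => by simp)]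
  have h2 : Fintype.card H * (f ⁻¹' A).ncard = ∑ y : H, ∑ x : G, if f x - y ∈ A then 1 else 0 := by
    rw [Finset.sum_congr rfl (fun y _ => (h1 y).symm)]
    simp
  rw [h2, Finset.sum_comm]
  have h3 : ∀ x : G, ∑ y : H, (if f x - y ∈ A then 1 else 0) = A.ncard := by
    intro x
    rw [hc' A]
    exact Fintype.sum_equiv (Equiv.subLeft (f x)) _ _ (fun y => by simp)
  rw [Finset.sum_congr rfl (fun x _ => h3 x)]
  simp

theorem ncard_preimage_castHom {m n : ℕ} (hn : n ≠ 0) (h : m ∣ n) (A : Set (ZMod m)) :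
    m * (ZMod.castHom h (ZMod m) ⁻¹' A).ncard = n * A.ncard := by
  have hm : m ≠ 0 := fun h0 => hn (Nat.eq_zero_of_zero_dvd (h0 ▸ h))
  have : NeZero n := ⟨hn⟩
  have : NeZero m := ⟨hm⟩
  have h1 := card_preimage (ZMod.castHom h (ZMod m)).toAddMonoidHom
    (ZMod.castHom_surjective h) A
  rw [ZMod.card, ZMod.card] at h1
  exact h1

theorem D_mono {m n : ℕ} (hn : n ≠ 0) (h : m ∣ n) : D m ≤ D n := by
  have hm : m ≠ 0 := fun h0 => hn (Nat.eq_zero_of_zero_dvd (h0 ▸ h))
  obtain ⟨A, hA, hD⟩ := exists_D hm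
  have h1 : ProductFree (ZMod.castHom h (ZMod m) ⁻¹' A) := by
    intro a ha b hb hab
    rw [Set.mem_preimage, map_mul] at hab
    exact hA _ ha _ hb hab
  have h2 := le_D hn h1
  have h3 := ncard_preimage_castHom hn h A
  have h4 : (m : ℝ) * ((ZMod.castHom h (ZMod m) ⁻¹' A).ncard : ℝ) = n * A.ncard := by
    exact_mod_cast h3
  have hm' : (0 : ℝ) < m := by positivity
  have hn' : (0 : ℝ) < n := by positivity
  rw [hD]
  refine le_trans (le_of_eq ?_) h2
  rw [div_eq_div_iff hm'.ne' hn'.ne']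
  linarith

theorem Dstar_mono {m n : ℕ} (hn : n ≠ 0) (h : m ∣ n) : Dstar m ≤ Dstar n := by
  have hm : m ≠ 0 := fun h0 => hn (Nat.eq_zero_of_zero_dvd (h0 ▸ h))
  obtain ⟨X, Y, hadm, hD⟩ := exists_Dstar hm
  have h1 : Admissible (ZMod.castHom h (ZMod m) ⁻¹' X) (ZMod.castHom h (ZMod m) ⁻¹' Y) := by
    refine ⟨?_, ?_, ?_⟩
    · intro a ha b hb hab
      rw [Set.mem_preimage, map_mul] at hab
      exact hadm.1 _ ha _ hb hab
    · intro a ha b hb hab
      rw [Set.mem_preimage, map_mul] at hab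
      exact hadm.2.1 _ ha _ hb hab
    · intro a ha b hb hab
      rw [Set.mem_preimage, map_mul] at hab
      exact hadm.2.2 _ ha _ hb hab
  have h2 := le_Dstar hn h1
  have h4 : (m : ℝ) * ((ZMod.castHom h (ZMod m) ⁻¹' X).ncard : ℝ) = n * X.ncard := by
    exact_mod_cast ncard_preimage_castHom hn h X
  have h5 : (m : ℝ) * ((ZMod.castHom h (ZMod m) ⁻¹' Y).ncard : ℝ) = n * Y.ncard := by
    exact_mod_cast ncard_preimage_castHom hn h Y
  have hm' : (0 : ℝ) < m := by positivity
  have hn' : (0 : ℝ) < n := by positivity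
  rw [hD]
  refine le_trans (le_of_eq ?_) h2
  rw [div_eq_div_iff (by positivity) (by positivity)]
  linear_combination (-2) * (h4 + h5)

theorem Dstar_mul_eq {n t : ℕ} (hn : n ≠ 0) (ht : Squarefree t) (hnt : Nat.Coprime n t) :
    Dstar (n * t) = Dstar n :=
  le_antisymm (Dstar_mul_le hn ht hnt) (Dstar_mono (mul_ne_zero hn ht.ne_zero) (dvd_mul_right n t))

open Classical in
/-- half of the nonzero residues are squares -/
theorem quad_count (p : ℕ) [Fact p.Prime] (hp2 : p ≠ 2) :
    (((Finset.univ.filter (fun c : ZMod p => quadraticChar (ZMod p) c = 1)).card : ℝ) =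
      ((p : ℝ) - 1) / 2) ∧
    (((Finset.univ.filter (fun c : ZMod p => quadraticChar (ZMod p) c = -1)).card : ℝ) =
      ((p : ℝ) - 1) / 2) := by
  have hchar : ringChar (ZMod p) ≠ 2 := by rwa [ZMod.ringChar_zmod_n]
  have h0 := quadraticChar_sum_zero hchar
  set P := (Finset.univ.filter (fun c : ZMod p => quadraticChar (ZMod p) c = 1)).card with hP
  set Q := (Finset.univ.filter (fun c : ZMod p => quadraticChar (ZMod p) c = -1)).card with hQ
  have h1 : ∑ c : ZMod p, quadraticChar (ZMod p) c = (P : ℤ) - Q := by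
    have : ∀ c : ZMod p, quadraticChar (ZMod p) c =
        (if quadraticChar (ZMod p) c = 1 then 1 else 0) -
        (if quadraticChar (ZMod p) c = -1 then 1 else 0) := by
      intro c
      by_cases hc : c = 0
      · rw [hc, MulChar.map_zero]; norm_num
      · rcases quadraticChar_dichotomy hc with h | h
        · rw [h]; norm_num
        · rw [h]; norm_num
    rw [Finset.sum_congr rfl (fun c _ => this c), Finset.sum_sub_distrib, Finset.sum_boole,
      Finset.sum_boole]
  have h2 : P + Q + 1 = p := by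
    have h3 : ∑ c : ZMod p, ((if quadraticChar (ZMod p) c = 1 then 1 else 0) +
        (if quadraticChar (ZMod p) c = -1 then 1 else 0) + (if c = 0 then 1 else 0)) = p := by
      have : ∀ c : ZMod p, ((if quadraticChar (ZMod p) c = 1 then 1 else 0) +
        (if quadraticChar (ZMod p) c = -1 then 1 else 0) + (if c = 0 then 1 else 0)) = 1 := by
        intro c
        by_cases hc : c = 0
        · rw [hc, MulChar.map_zero]; norm_num
        · rcases quadraticChar_dichotomy hc with h | h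
          · rw [h]; simp [hc]
          · rw [h]; simp [hc]
      rw [Finset.sum_congr rfl (fun c _ => this c)]
      simp [ZMod.card]
    have h5 : (Finset.univ.filter (fun c : ZMod p => c = 0)).card = 1 := by
      simp [Finset.filter_eq']
    rw [Finset.sum_add_distrib, Finset.sum_add_distrib, Finset.sum_boole, Finset.sum_boole,
      Finset.sum_boole, h5] at h3
    exact h3
  rw [h1] at h0
  have h3 : (P : ℝ) - Q = 0 := by exact_mod_cast h0
  have h4 : (P : ℝ) + Q + 1 = p := by exact_mod_cast h2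
  constructor <;> linarith

open Classical in
theorem D_prime_mul_ge {n p : ℕ} (hn : n ≠ 0) (hp : p.Prime) (hp2 : p ≠ 2) (hpn : ¬ p ∣ n) :
    (1 - 1 / (p : ℝ)) * Dstar n ≤ D (p * n) := by
  have : NeZero n := ⟨hn⟩
  have : Fact p.Prime := ⟨hp⟩
  have hpn0 : p * n ≠ 0 := mul_ne_zero hp.ne_zero hn
  have : NeZero (p * n) := ⟨hpn0⟩
  have hcop : Nat.Coprime p n := (Nat.Prime.coprime_iff_not_dvd hp).2 hpn
  set e : ZMod (p * n) ≃+* ZMod p × ZMod n := ZMod.chineseRemainder hcop with he
  obtain ⟨X, Y, hadm, hD⟩ := exists_Dstar hn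
  set χ := quadraticChar (ZMod p) with hχ
  set A : Set (ZMod (p * n)) := {z | (χ (e z).1 = 1 ∧ (e z).2 ∈ X) ∨ (χ (e z).1 = -1 ∧ (e z).2 ∈ Y)}
    with hA
  have hpf : ProductFree A := by
    intro a ha b hb hab
    simp only [hA, Set.mem_ofPred_eq, map_mul, Prod.fst_mul, Prod.snd_mul] at ha hb hab
    rcases ha with ⟨h1, h2⟩ | ⟨h1, h2⟩ <;> rcases hb with ⟨h3, h4⟩ | ⟨h3, h4⟩ <;>
      rw [h1, h3] at hab
    · rcases hab with ⟨_, h5⟩ | ⟨h5, _⟩
      · exact hadm.1 _ h2 _ h4 h5
      · norm_num at h5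
    · rcases hab with ⟨h5, _⟩ | ⟨_, h5⟩
      · norm_num at h5
      · exact hadm.2.1 _ h2 _ h4 h5
    · rcases hab with ⟨h5, _⟩ | ⟨_, h5⟩
      · norm_num at h5
      · rw [mul_comm] at h5
        exact hadm.2.1 _ h4 _ h2 h5
    · rcases hab with ⟨_, h5⟩ | ⟨h5, _⟩
      · exact hadm.2.2 _ h2 _ h4 h5
      · norm_num at h5
  have h1 := le_D hpn0 hpf
  have hcard : (A.ncard : ℝ) = ((p : ℝ) - 1) / 2 * (X.ncard + Y.ncard) := by
    have h2 : A.ncard = ∑ y : ZMod p, ∑ x : ZMod n,
        ((if χ y = 1 then 1 else 0) * (if x ∈ X then 1 else 0) +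
        (if χ y = -1 then 1 else 0) * (if x ∈ Y then 1 else 0)) := by
      rw [Set.ncard_eq_toFinset_card', ← Fintype.sum_prod_type (f := fun z : ZMod p × ZMod n =>
        ((if χ z.1 = 1 then 1 else 0) * (if z.2 ∈ X then 1 else 0) +
        (if χ z.1 = -1 then 1 else 0) * (if z.2 ∈ Y then 1 else 0)))]
      rw [← Fintype.sum_equiv e.toEquiv (fun z => if z ∈ A then 1 else 0) _ ?_]
      · rw [Finset.sum_boole]
        simp
      · intro z
        simp only [hA, Set.mem_ofPred_eq, RingEquiv.toEquiv_eq_coe, EquivLike.coe_coe]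
        by_cases c1 : χ (e z).1 = 1
        · have c2 : ¬ (χ (e z).1 = -1) := by rw [c1]; norm_num
          simp [c1]
        · by_cases c2 : χ (e z).1 = -1
          · simp [c2]
          · simp [c1, c2]
    have hc : ∀ (S : Set (ZMod n)), S.ncard = ∑ x : ZMod n, if x ∈ S then 1 else 0 := by
      intro S
      rw [Finset.sum_boole, Set.ncard_eq_toFinset_card']
      simp
    have h3 : A.ncard = (Finset.univ.filter (fun c : ZMod p => χ c = 1)).card * X.ncard +
        (Finset.univ.filter (fun c : ZMod p => χ c = -1)).card * Y.ncard := by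
      rw [h2, hc X, hc Y, Finset.card_filter, Finset.card_filter, Finset.sum_mul_sum,
        Finset.sum_mul_sum, ← Finset.sum_add_distrib]
      apply Finset.sum_congr rfl
      intro y _
      rw [← Finset.sum_add_distrib]
    obtain ⟨h4, h5⟩ := quad_count p hp2
    rw [h3]
    push_cast
    rw [h4, h5]
    ring
  rw [hcard] at h1
  refine le_trans (le_of_eq ?_) h1
  rw [hD]
  have hp' : (p : ℝ) ≠ 0 := by exact_mod_cast hp.ne_zero
  have hn' : (n : ℝ) ≠ 0 := by exact_mod_cast hn
  push_cast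
  field_simp

/-- If `u < Dstar n` then `u < D (p n)` for all large primes `p`. -/
theorem exists_prime_bound {n : ℕ} (hn : n ≠ 0) {u : ℝ} (hu : u < Dstar n) :
    ∃ p₀ : ℕ, ∀ p : ℕ, p.Prime → p₀ ≤ p → ¬ p ∣ n → u < D (p * n) := by
  have h1 : Filter.Tendsto (fun p : ℕ => (1 - 1 / (p : ℝ)) * Dstar n) Filter.atTop
      (nhds ((1 - 0) * Dstar n)) :=
    (tendsto_const_nhds.sub tendsto_one_div_atTop_nhds_zero_nat).mul_const _
  have h2 : ∀ᶠ p : ℕ in Filter.atTop, u < (1 - 1 / (p : ℝ)) * Dstar n := by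
    apply h1.eventually_const_lt
    rwa [sub_zero, one_mul]
  obtain ⟨p₀, hp₀⟩ := Filter.eventually_atTop.1 h2
  refine ⟨max p₀ 3, fun p hp hpp hpn => ?_⟩
  have hp2 : p ≠ 2 := by
    have := le_trans (le_max_right p₀ 3) hpp
    omega
  exact (hp₀ p (le_trans (le_max_left _ _) hpp)).trans_le (D_prime_mul_ge hn hp hp2 hpn)

end Pool.Agent.Helper88_PF
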