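import Pool.Agent.Helper88_PF.Density

/-!
# The equivalent form of the question about primitive elements
-/

namespace Pool.Agent.Helper88_PF

/-- `n` is a primitive element of `N(u)`: no other element of `N(u)` divides `n`. -/
def IsPrimitive (u : ℝ) (n : ℕ) : Prop := n ∈ NSet u ∧ ∀ m ∈ NSet u, m ∣ n → m = n

/-- `n` is squarefull: `p ^ 2 ∣ n` for every prime `p ∣ n`. -/
def Squarefull (n : ℕ) : Prop := 1 ≤ n ∧ ∀ p : ℕ, p.Prime → p ∣ n → p ^ 2 ∣ n

theorem exists_decomp : ∀ n : ℕ, 1 ≤ n → ∃ s t : ℕ, n = s * t ∧ Squarefull s ∧ Squarefree t ∧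
    Nat.Coprime s t := by
  intro n
  induction n using Nat.strong_induction_on with
  | _ n ih =>
    intro hn
    by_cases h : Squarefull n
    · exact ⟨n, 1, (mul_one n).symm, h, squarefree_one, Nat.coprime_one_right n⟩
    · unfold Squarefull at h
      push Not at h
      obtain ⟨p, hp, hpn, hpn2⟩ := h hn
      obtain ⟨m, rfl⟩ := hpn
      have hpm : ¬ p ∣ m := by
        rintro ⟨r, rfl⟩
        exact hpn2 ⟨r, by ring⟩
      have hm : 1 ≤ m := by
        by_contra h0
        have : m = 0 := by omega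
        subst this
        omega
      have hlt : m < p * m := by
        have := hp.two_le
        nlinarith
      obtain ⟨s, t, hst, hs, ht, hcop⟩ := ih m hlt hm
      refine ⟨s, p * t, by rw [hst]; ring, hs, ?_, ?_⟩
      · rw [Nat.squarefree_mul_iff]
        refine ⟨?_, hp.prime.squarefree, ht⟩
        rw [Nat.Prime.coprime_iff_not_dvd hp]
        intro h1
        exact hpm (hst ▸ h1.mul_left s)
      · apply Nat.Coprime.mul_right _ hcop
        rw [Nat.coprime_comm, Nat.Prime.coprime_iff_not_dvd hp]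
        intro h1
        exact hpm (hst ▸ h1.mul_right t)

theorem exists_primitive {u : ℝ} {n : ℕ} (hn : n ∈ NSet u) : ∃ m, m ∣ n ∧ IsPrimitive u m := by
  classical
  have hex : ∃ m, m ∣ n ∧ m ∈ NSet u := ⟨n, dvd_rfl, hn⟩
  refine ⟨Nat.find hex, (Nat.find_spec hex).1, (Nat.find_spec hex).2, fun k hk hkm => ?_⟩
  have h1 : Nat.find hex ≤ k := Nat.find_min' hex ⟨hkm.trans (Nat.find_spec hex).1, hk⟩
  have h2 : k ≤ Nat.find hex := Nat.le_of_dvd (Nat.find_spec hex).2.1 hkm
  exact le_antisymm h2 h1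

theorem D_lt_one {n : ℕ} (hn : n ≠ 0) : D n < 1 := by
  have : NeZero n := ⟨hn⟩
  obtain ⟨A, hA, hD⟩ := exists_D hn
  rw [hD, div_lt_one (by positivity)]
  have h1 : A ≠ Set.univ := by
    rintro rfl
    exact hA 1 (Set.mem_univ _) 1 (Set.mem_univ _) (Set.mem_univ _)
  have h2 : A.ncard < (Set.univ : Set (ZMod n)).ncard :=
    Set.ncard_lt_ncard (Set.ssubset_univ_iff.2 h1)
  rw [Set.ncard_univ, Nat.card_eq_fintype_card, ZMod.card] at h2
  exact_mod_cast h2

theorem reduction :
    (∀ u : ℝ, 1 / 2 ≤ u → u < 1 → ∀ n, IsPrimitive u n → Squarefull n) ↔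
      ∀ s, Squarefull s → Dstar s ≤ max (1 / 2) (D s) := by
  constructor
  · intro h s hs
    by_contra hcon
    push Not at hcon
    have hs0 : s ≠ 0 := by have := hs.1; omega
    set u := max (1 / 2 : ℝ) (D s) with hu
    have hu1 : u < 1 := max_lt (by norm_num) (D_lt_one hs0)
    obtain ⟨p₀, hp₀⟩ := exists_prime_bound hs0 hcon
    obtain ⟨p, hpp, hp⟩ := Nat.exists_infinite_primes (max p₀ (s + 1))
    have hps : ¬ p ∣ s := by
      intro h1
      have h2 := Nat.le_of_dvd (Nat.pos_of_ne_zero hs0) h1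
      have h3 := le_trans (le_max_right p₀ (s + 1)) hpp
      omega
    have h1 := hp₀ p hp (le_trans (le_max_left _ _) hpp) hps
    have hmem : p * s ∈ NSet u := ⟨Nat.pos_of_ne_zero (mul_ne_zero hp.ne_zero hs0), h1⟩
    obtain ⟨n, hns, hprim⟩ := exists_primitive hmem
    have hsq := h u (le_max_left _ _) hu1 n hprim
    have hpn : ¬ p ∣ n := by
      intro h2
      have h3 : p * p ∣ p * s := by
        have := (hsq.2 p hp h2).trans hns
        rwa [sq] at this
      exact hps ((mul_dvd_mul_iff_left hp.ne_zero).1 h3)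
    have hcop : Nat.Coprime n p := by
      rw [Nat.coprime_comm, Nat.Prime.coprime_iff_not_dvd hp]
      exact hpn
    have hns' : n ∣ s := hcop.dvd_of_dvd_mul_left hns
    have h4 : D n ≤ D s := D_mono hs0 hns'
    have h5 : u < D n := hprim.1.2
    have h6 : D s ≤ u := le_max_right _ _
    linarith
  · intro h u hu _ n hprim
    obtain ⟨s, t, hst, hs, ht, hcop⟩ := exists_decomp n hprim.1.1
    have hs0 : s ≠ 0 := by have := hs.1; omega
    have h1 : D n ≤ Dstar s := by
      rw [hst]
      exact D_mul_le_Dstar hs0 ht hcop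
    have h2 := h s hs
    have h3 : u < D n := hprim.1.2
    have h4 : u < D s := by
      rcases le_max_iff.1 (h1.trans h2) with h5 | h5
      · linarith
      · linarith
    have h5 : s = n := hprim.2 s ⟨hs.1, h4⟩ ⟨t, hst⟩
    rw [← h5]
    exact hs

end Pool.Agent.Helper88_PF
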